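import Pool.Agent.Helper20.CP.Spec

/-!
# CP, part SP: shortest walks are paths; reversal
-/

set_option autoImplicit false

namespace Pool.Agent.Helper29.CP.SP

open Pool.Agent.Helper20.CP

variable {X V : Type} {vt : X → V} {σ : Equiv.Perm X}

/-- a walk as a sequence of vertices -/
def Wk (vt : X → V) (σ : Equiv.Perm X) (k : ℕ) (π : ℕ → V) : Prop :=
  ∀ i < k, ∃ x, vt x = π i ∧ vt (σ x) = π (i + 1)

lemma wk_of_reach : ∀ (k : ℕ) (u v : V), Reach vt σ k u v →
    ∃ π : ℕ → V, π 0 = u ∧ π k = v ∧ Wk vt σ k π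
  | 0, u, v, h => ⟨fun _ => u, rfl, h, fun i hi => absurd hi (Nat.not_lt_zero _)⟩
  | k + 1, u, v, ⟨x, hx, h⟩ => by
    obtain ⟨π, h0, hk, hw⟩ := wk_of_reach k _ _ h
    refine ⟨fun i => if i = 0 then u else π (i - 1), by simp, by simpa using hk, ?_⟩
    intro i hi
    rcases Nat.eq_zero_or_pos i with rfl | hpos
    · exact ⟨x, by simpa using hx, by simpa using h0.symm⟩
    · obtain ⟨j, rfl⟩ : ∃ j, i = j + 1 := ⟨i - 1, by omega⟩
      obtain ⟨y, hy1, hy2⟩ := hw j (by omega)
      exact ⟨y, by simpa using hy1, by simpa using hy2⟩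

/-- cut out a loop -/
lemma wk_cut {k : ℕ} {π : ℕ → V} (h : Wk vt σ k π) {i j : ℕ} (hij : i < j) (hj : j ≤ k)
    (e : π i = π j) :
    Wk vt σ (k - (j - i)) (fun l => if l ≤ i then π l else π (l + (j - i))) := by
  intro l hl
  rcases lt_trichotomy l i with hli | rfl | hli
  · obtain ⟨x, h1, h2⟩ := h l (by omega)
    refine ⟨x, ?_, ?_⟩
    · simp only [if_pos hli.le]; exact h1
    · simp only [if_pos (Nat.succ_le_of_lt hli)]; exact h2
  · obtain ⟨x, h1, h2⟩ := h j (by omega)
    refine ⟨x, ?_, ?_⟩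
    · simp only [le_refl, if_true]; rw [e]; exact h1
    · have : ¬ (l + 1 ≤ l) := by omega
      simp only [if_neg this]
      rw [h2]
      congr 1
      omega
  · obtain ⟨x, h1, h2⟩ := h (l + (j - i)) (by omega)
    refine ⟨x, ?_, ?_⟩
    · simp only [if_neg (not_le.2 hli)]; exact h1
    · have : ¬ (l + 1 ≤ i) := by omega
      simp only [if_neg this]
      rw [h2]
      congr 1
      omega

lemma exists_path (k : ℕ) (u v : V) (h : ∃ π : ℕ → V, π 0 = u ∧ π k = v ∧ Wk vt σ k π) :
    ∃ k' ≤ k, ∃ π : ℕ → V, π 0 = u ∧ π k' = v ∧ Pth vt σ k' π := by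
  induction k using Nat.strong_induction_on with
  | _ k ih =>
    obtain ⟨π, h0, hk, hw⟩ := h
    by_cases hinj : ∀ i ≤ k, ∀ j ≤ k, π i = π j → i = j
    · exact ⟨k, le_rfl, π, h0, hk, hw, hinj⟩
    · push Not at hinj
      obtain ⟨i', hi', j', hj', he', hne'⟩ := hinj
      have key : ∃ i j, i < j ∧ j ≤ k ∧ π i = π j := by
        rcases lt_or_gt_of_ne hne' with h1 | h1
        · exact ⟨i', j', h1, hj', he'⟩
        · exact ⟨j', i', h1, hi', he'.symm⟩
      obtain ⟨i, j, hij, hj, e⟩ := key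
      have hc := wk_cut hw hij hj e
      obtain ⟨k', hk', π', p0, pk, pp⟩ := ih (k - (j - i)) (by omega)
        ⟨_, by simpa using h0, by
          by_cases hle : k - (j - i) ≤ i
          · simp only [if_pos hle]
            have h1 : k = j := by omega
            have h2 : k - (j - i) = i := by omega
            rw [h2, e, ← h1]; exact hk
          · simp only [if_neg hle]
            have : k - (j - i) + (j - i) = k := by omega
            rw [this]; exact hk, hc⟩
      exact ⟨k', by omega, π', p0, pk, pp⟩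

theorem main : S_SP := by
  intro X V vt σ
  refine ⟨fun k u v h => exists_path k u v (wk_of_reach k u v h), ?_⟩
  intro hσ k π h
  refine ⟨?_, ?_⟩
  · intro i hi
    obtain ⟨x, h1, h2⟩ := h.1 (k - i - 1) (by omega)
    refine ⟨σ x, ?_, ?_⟩
    · rw [h2]
      show π (k - i - 1 + 1) = π (k - i)
      congr 1
      omega
    · rw [hσ, h1]
      show π (k - i - 1) = π (k - (i + 1))
      congr 1
  · intro i hi j hj hij
    have := h.2 (k - i) (by omega) (k - j) (by omega) hij
    omega

end Pool.Agent.Helper29.CP.SP
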