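import Pool.Agent.Helper29.CP.Avg
import Pool.Agent.Helper29.CP.SP

/-!
# CP, part B3: two uniform vertices are far apart
-/

set_option autoImplicit false

open MeasureTheory
open scoped ENNReal

namespace Pool.Agent.Helper29.CP.B3

open Pool.Agent.Helper20.CP

section cases

variable {X V : Type} [Fintype X] (vt : X → V) (σ : Equiv.Perm X) (b0 γ : ℝ)

/-- the degree bound is violated for the first time at step `i` -/
def Bad (u : V) (i : ℕ) : Prop := ∃ π : ℕ → V, π 0 = u ∧ Pth vt σ i π ∧
  (∀ j, 1 ≤ j → j < i → (dg vt (π j) : ℝ) ≤ b0 ^ (γ ^ j : ℝ)) ∧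
  b0 ^ (γ ^ i : ℝ) < (dg vt (π i) : ℝ)

/-- a path which satisfies the degree bounds -/
def Good (u v : V) (k : ℕ) : Prop := ∃ π : ℕ → V, π 0 = u ∧ π k = v ∧ Pth vt σ k π ∧
  ∀ j, 1 ≤ j → j < k → (dg vt (π j) : ℝ) ≤ b0 ^ (γ ^ (min j (k - j)) : ℝ)

omit [Fintype X] in
lemma pth_prefix {k i : ℕ} {π : ℕ → V} (h : Pth vt σ k π) (hi : i ≤ k) : Pth vt σ i π :=
  ⟨fun j hj => h.1 j (by omega), fun j hj l hl => h.2 j (by omega) l (by omega)⟩

lemma cases_reach (hσ : ∀ x, σ (σ x) = x) {u v : V} (huv : u ≠ v) {k H : ℕ} (hk : k ≤ H)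
    (h : Reach vt σ k u v) :
    (∃ i, i < H ∧ Bad vt σ b0 γ u (i + 1)) ∨ (∃ i, i < H ∧ Bad vt σ b0 γ v (i + 1)) ∨
      ∃ i, i < H ∧ Good vt σ b0 γ u v (i + 1) := by
  classical
  obtain ⟨h1, h2⟩ := SP.main X V vt σ
  obtain ⟨k', hk', π, p0, pk, pp⟩ := h1 k u v h
  have hpos : 1 ≤ k' := by
    by_contra hc
    have : k' = 0 := by omega
    rw [this] at pk
    exact huv (p0.symm.trans pk)
  by_cases hg : ∀ j, 1 ≤ j → j < k' → (dg vt (π j) : ℝ) ≤ b0 ^ (γ ^ (min j (k' - j)) : ℝ)
  · right; right
    refine ⟨k' - 1, by omega, π, p0, ?_, ?_, ?_⟩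
    · rw [Nat.sub_add_cancel hpos]; exact pk
    · rw [Nat.sub_add_cancel hpos]; exact pp
    · rw [Nat.sub_add_cancel hpos]; exact hg
  · have hex : ∃ i, ∃ j, 1 ≤ j ∧ j < k' ∧ min j (k' - j) = i ∧
        ¬ ((dg vt (π j) : ℝ) ≤ b0 ^ (γ ^ i : ℝ)) := by
      push Not at hg
      obtain ⟨j, hj1, hj2, hj3⟩ := hg
      exact ⟨_, j, hj1, hj2, rfl, not_le.2 hj3⟩
    obtain ⟨j, hj1, hj2, hj3, hj4⟩ := Nat.find_spec hex
    have hmin : ∀ m, m < Nat.find hex → ∀ l, 1 ≤ l → l < k' → min l (k' - l) = m →
        (dg vt (π l) : ℝ) ≤ b0 ^ (γ ^ m : ℝ) := by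
      intro m hm l hl1 hl2 hl3
      by_contra hc
      exact Nat.find_min hex hm ⟨l, hl1, hl2, hl3, hc⟩
    set i := Nat.find hex with hi
    rcases le_or_gt j (k' - j) with hle | hlt
    · left
      have hij : i = j := by omega
      have hj' : j - 1 + 1 = j := by omega
      refine ⟨j - 1, by omega, π, p0, ?_, ?_, ?_⟩
      · rw [hj']; exact pth_prefix vt σ pp hj2.le
      · intro l hl1 hl2
        rw [hj'] at hl2
        exact hmin l (by omega) l hl1 (by omega) (by omega)
      · rw [hj']
        rw [hij] at hj4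
        exact not_le.1 hj4
    · right; left
      have hij : i = k' - j := by omega
      have hj' : (k' - j) - 1 + 1 = k' - j := by omega
      have hrev := h2 hσ k' π pp
      refine ⟨(k' - j) - 1, by omega, fun l => π (k' - l), by simpa using pk, ?_, ?_, ?_⟩
      · rw [hj']; exact pth_prefix vt σ hrev (Nat.sub_le _ _)
      · intro l hl1 hl2
        rw [hj'] at hl2
        exact hmin l (by omega) (k' - l) (by omega) (by omega) (by omega)
      · rw [hj']
        show b0 ^ (γ ^ (k' - j) : ℝ) < (dg vt (π (k' - (k' - j))) : ℝ)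
        rw [hij] at hj4
        have : k' - (k' - j) = j := by omega
        rw [this]
        exact not_le.1 hj4

end cases

lemma invol_of_mem {X : Type} [Fintype X] {σ : Equiv.Perm X} (h : σ ∈ pairings X) :
    ∀ x, σ (σ x) = x := by
  classical
  simp only [pairings, Finset.mem_filter] at h
  exact h.2.1

lemma ind_le {p : Prop} {S : ℝ≥0∞} (h : p → 1 ≤ S) : ind p ≤ S := by
  unfold ind
  split_ifs with hp
  · exact h hp
  · exact zero_le

lemma ind_true {p : Prop} (h : p) : ind p = 1 := by
  unfold ind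
  rw [if_pos h]

lemma ind_le_one (p : Prop) : ind p ≤ 1 := ind_le fun _ => le_rfl

theorem main (hBB : S_BBAD) (hBG : S_BGOOD) : S_B := by
  classical
  intro X V _ _ _ vt b0 γ s a h hb0 hγ hs hsa ha hg hR hh hhn
  have hHh : ((⌊h⌋₊ : ℕ) : ℝ) ≤ h := Nat.floor_le hh
  have hH2 : 2 * ⌊h⌋₊ ≤ Fintype.card V := by
    have : ((2 * ⌊h⌋₊ : ℕ) : ℝ) ≤ (Fintype.card V : ℝ) := by
      push_cast; linarith
    exact_mod_cast this
  obtain ⟨H, hHdef⟩ : ∃ H, H = ⌊h⌋₊ := ⟨_, rfl⟩
  rw [← hHdef] at hHh hH2
  obtain ⟨n, hn⟩ : ∃ n, n = Fintype.card V := ⟨_, rfl⟩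
  have hb00 : 0 < b0 := by linarith
  obtain ⟨Bi, hBi⟩ : ∃ Bi : ℕ → ℝ, Bi = fun i =>
    b0 ^ (-(((a - s) * γ - 1) / (γ - 1)) * (γ ^ (i + 1) - 1) : ℝ) := ⟨_, rfl⟩
  obtain ⟨Gm, hGm⟩ : ∃ Gm : ℝ, Gm = b0 ^ 2 / (Fintype.card V : ℝ) *
    b0 ^ (2 * (1 - a + s) * γ ^ (H / 2 + 1) / (γ - 1) : ℝ) := ⟨_, rfl⟩
  have hBi0 : ∀ i, 0 ≤ Bi i := fun i => by rw [hBi]; exact Real.rpow_nonneg hb00.le _
  have hGm0 : 0 ≤ Gm := by
    rw [hGm]
    exact mul_nonneg (by positivity) (Real.rpow_nonneg hb00.le _)
  obtain ⟨C, hC⟩ : ∃ C : ℝ, C = 2 * ∑ i ∈ Finset.range H, Bi i + H * Gm := ⟨_, rfl⟩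
  have hSB0 : 0 ≤ ∑ i ∈ Finset.range H, Bi i := Finset.sum_nonneg fun i _ => hBi0 i
  have hC0 : 0 ≤ C := by rw [hC]; positivity
  let e : V → V → ℝ := fun u v => (if u = v then 1 else 0) + (if b0 < (dg vt u : ℝ) then 1 else 0)
    + (if b0 < (dg vt v : ℝ) then 1 else 0) + C
  have key : ∀ u v : V, avg (fun σ : Equiv.Perm X =>
      ind (∃ k : ℕ, (k : ℝ) ≤ h ∧ Reach vt σ k u v)) ≤ ENNReal.ofReal (e u v) := by
    intro u v
    by_cases hone : u = v ∨ b0 < (dg vt u : ℝ) ∨ b0 < (dg vt v : ℝ)
    · refine le_trans (avg_le_one fun σ _ => ind_le_one _) ?_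
      rw [ENNReal.one_le_ofReal]
      simp only [e]
      rcases hone with h' | h' | h'
      · rw [if_pos h']
        split_ifs <;> linarith
      · rw [if_pos h']
        split_ifs <;> linarith
      · rw [if_pos h']
        split_ifs <;> linarith
    · push Not at hone
      obtain ⟨huv, hdu, hdv⟩ := hone
      have he : e u v = C := by
        simp only [e]
        rw [if_neg huv, if_neg (not_lt.2 hdu), if_neg (not_lt.2 hdv)]
        ring
      rw [he]
      calc avg (fun σ : Equiv.Perm X => ind (∃ k : ℕ, (k : ℝ) ≤ h ∧ Reach vt σ k u v))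
          ≤ avg (fun σ : Equiv.Perm X =>
              ((∑ i ∈ Finset.range H, ind (Bad vt σ b0 γ u (i + 1))) +
              (∑ i ∈ Finset.range H, ind (Bad vt σ b0 γ v (i + 1)))) +
              ∑ i ∈ Finset.range H, ind (Good vt σ b0 γ u v (i + 1))) := by
            refine avg_mono fun σ hσ => ind_le ?_
            rintro ⟨k, hk, hr⟩
            have hk' : k ≤ H := by rw [hHdef]; exact Nat.le_floor hk
            have hσ' : ∀ x, σ (σ x) = x := invol_of_mem hσ
            rcases cases_reach vt σ b0 γ hσ' huv hk' hr with ⟨i, hi, hb⟩ | ⟨i, hi, hb⟩ | ⟨i, hi, hb⟩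
            · refine le_trans ?_ (le_trans le_self_add le_self_add)
              refine le_trans (le_of_eq (ind_true hb).symm) ?_
              exact Finset.single_le_sum (f := fun i => ind (Bad vt σ b0 γ u (i + 1)))
                (fun _ _ => zero_le) (Finset.mem_range.2 hi)
            · refine le_trans ?_ (le_trans le_add_self le_self_add)
              refine le_trans (le_of_eq (ind_true hb).symm) ?_
              exact Finset.single_le_sum (f := fun i => ind (Bad vt σ b0 γ v (i + 1)))
                (fun _ _ => zero_le) (Finset.mem_range.2 hi)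
            · refine le_trans ?_ le_add_self
              refine le_trans (le_of_eq (ind_true hb).symm) ?_
              exact Finset.single_le_sum (f := fun i => ind (Good vt σ b0 γ u v (i + 1)))
                (fun _ _ => zero_le) (Finset.mem_range.2 hi)
        _ = ((∑ i ∈ Finset.range H, avg (fun σ : Equiv.Perm X => ind (Bad vt σ b0 γ u (i + 1)))) +
            (∑ i ∈ Finset.range H, avg (fun σ : Equiv.Perm X => ind (Bad vt σ b0 γ v (i + 1))))) +
            ∑ i ∈ Finset.range H, avg (fun σ : Equiv.Perm X =>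
              ind (Good vt σ b0 γ u v (i + 1))) := by
            rw [avg_add, avg_add, avg_sum, avg_sum, avg_sum]
        _ ≤ ((∑ i ∈ Finset.range H, ENNReal.ofReal (Bi i)) +
            (∑ i ∈ Finset.range H, ENNReal.ofReal (Bi i))) +
            ∑ i ∈ Finset.range H, ENNReal.ofReal Gm := by
            refine add_le_add (add_le_add ?_ ?_) ?_
            · refine Finset.sum_le_sum fun i hi => ?_
              rw [Finset.mem_range] at hi
              have := hBB X V vt b0 γ s a hb0 hγ hs hsa ha hg hR u hdu (i + 1) (by omega) (by omega)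
              rw [hBi]
              exact this
            · refine Finset.sum_le_sum fun i hi => ?_
              rw [Finset.mem_range] at hi
              have := hBB X V vt b0 γ s a hb0 hγ hs hsa ha hg hR v hdv (i + 1) (by omega) (by omega)
              rw [hBi]
              exact this
            · refine Finset.sum_le_sum fun i hi => ?_
              rw [Finset.mem_range] at hi
              have := hBG X V vt b0 γ s a hb0 hγ hs hsa ha hR u v hdu hdv (i + 1) (by omega)
                (by omega)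
              refine le_trans this (ENNReal.ofReal_le_ofReal ?_)
              rw [hGm]
              refine mul_le_mul_of_nonneg_left ?_ (by positivity)
              refine Real.rpow_le_rpow_of_exponent_le hb0.le ?_
              refine div_le_div_of_nonneg_right ?_ (by linarith)
              refine mul_le_mul_of_nonneg_left ?_ (by linarith)
              refine pow_le_pow_right₀ hγ.le ?_
              have : (i + 1) / 2 ≤ H / 2 := Nat.div_le_div_right (by omega)
              omega
        _ = ENNReal.ofReal C := by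
            rw [← ENNReal.ofReal_sum_of_nonneg (fun i _ => hBi0 i),
              ← ENNReal.ofReal_sum_of_nonneg (fun i _ => hGm0), Finset.sum_const,
              Finset.card_range, nsmul_eq_mul,
              ← ENNReal.ofReal_add hSB0 hSB0, ← ENNReal.ofReal_add (by positivity)
                (mul_nonneg (Nat.cast_nonneg _) hGm0), hC]
            congr 1
            ring
  have hsum : avg (fun σ : Equiv.Perm X => (∑ u : V, ∑ v : V,
        ind (∃ k : ℕ, (k : ℝ) ≤ h ∧ Reach vt σ k u v)) /
          ((Fintype.card V : ℝ≥0∞) * Fintype.card V)) ≤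
      ENNReal.ofReal (∑ u : V, ∑ v : V, e u v) / ((Fintype.card V : ℝ≥0∞) * Fintype.card V) := by
    rw [avg_div]
    refine ENNReal.div_le_div_right ?_ _
    have he0 : ∀ u v, 0 ≤ e u v := by
      intro u v
      simp only [e]
      split_ifs <;> linarith
    rw [avg_sum, ENNReal.ofReal_sum_of_nonneg (fun u _ => Finset.sum_nonneg fun v _ => he0 u v)]
    refine Finset.sum_le_sum fun u _ => ?_
    rw [avg_sum, ENNReal.ofReal_sum_of_nonneg (fun v _ => he0 u v)]
    exact Finset.sum_le_sum fun v _ => key u v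
  refine le_trans hsum ?_
  rcases Nat.eq_zero_or_pos (Fintype.card V) with h0 | hpos
  · have hemp : IsEmpty V := Fintype.card_eq_zero_iff.1 h0
    have : (∑ u : V, ∑ v : V, e u v) = 0 := by simp
    rw [this]
    simp
  have hnR : (0 : ℝ) < (Fintype.card V : ℝ) := by exact_mod_cast hpos
  have hden : ((Fintype.card V : ℝ≥0∞) * Fintype.card V) =
      ENNReal.ofReal ((Fintype.card V : ℝ) * Fintype.card V) := by
    rw [ENNReal.ofReal_mul hnR.le, ENNReal.ofReal_natCast]
  rw [hden, ← ENNReal.ofReal_div_of_pos (by positivity)]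
  refine ENNReal.ofReal_le_ofReal ?_
  -- the number of vertices of large degree
  obtain ⟨N, hN⟩ : ∃ N : ℝ, N = ∑ v : V, (if b0 < (dg vt v : ℝ) then (1 : ℝ) else 0) := ⟨_, rfl⟩
  have hNle : N ≤ Fintype.card V * b0 ^ (s - a) := by
    have ht := hR.tail 0
    simp only [pow_zero, Real.rpow_one, one_mul] at ht
    refine le_trans ?_ ht
    rw [hN, Finset.sum_filter]
    refine Finset.sum_le_sum fun v _ => ?_
    split_ifs with hv
    · have := hR.two v
      have h2 : (2 : ℝ) ≤ (dg vt v : ℝ) := by exact_mod_cast this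
      linarith
    · exact le_rfl
  have hS : (∑ u : V, ∑ v : V, e u v) = Fintype.card V + 2 * (Fintype.card V * N) +
      Fintype.card V * Fintype.card V * C := by
    simp only [e]
    simp only [Finset.sum_add_distrib, Finset.sum_const, Finset.card_univ, nsmul_eq_mul]
    rw [← Finset.mul_sum, ← hN]
    have : (∑ u : V, ∑ v : V, if u = v then (1 : ℝ) else 0) = Fintype.card V := by
      simp
    rw [this]
    ring
  rw [hS]
  have hfin : bB b0 γ s a h (Fintype.card V) = 1 / (Fintype.card V : ℝ) + 2 * b0 ^ (s - a) + C := by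
    unfold bB
    rw [← hHdef, hC, hBi, hGm]
    ring
  rw [hfin, div_le_iff₀ (by positivity)]
  have h1 : (1 / (Fintype.card V : ℝ) + 2 * b0 ^ (s - a) + C) *
      ((Fintype.card V : ℝ) * Fintype.card V) =
      Fintype.card V + 2 * (Fintype.card V * (Fintype.card V * b0 ^ (s - a))) +
      Fintype.card V * Fintype.card V * C := by
    field_simp
  rw [h1]
  have h2 : (Fintype.card V : ℝ) * N ≤ Fintype.card V * (Fintype.card V * b0 ^ (s - a)) :=
    mul_le_mul_of_nonneg_left hNle hnR.le
  linarith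

end Pool.Agent.Helper29.CP.B3
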