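import Pool.Agent.Helper29.CP.Avg

/-!
# CP, part CLIMB
-/

set_option autoImplicit false

open MeasureTheory
open scoped ENNReal

namespace Pool.Agent.Helper29.CP.CLIMB

open Pool.Agent.Helper20.CP

/-- the event that a path of length `j` cannot be extended -/
def Stuck {X V : Type} (vt : X → V) (σ : Equiv.Perm X) (w : Sym2 X → ℝ × ℝ) (Ch : Set (ℝ × ℝ))
    (Wn : ℕ → Finset V) (j : ℕ) (v : V) : Prop :=
  ∃ π : ℕ → V, π 0 = v ∧ Pth vt σ j π ∧
    (∀ i ≤ j, π i ∈ Wn i) ∧ ∀ x, vt x = π j → vt (σ x) ∈ Wn (j + 1) → (∀ i ≤ j, vt (σ x) ≠ π i) →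
      w s(x, σ x) ∉ Ch

lemma climb_or {X V : Type} (vt : X → V) (σ : Equiv.Perm X) (w : Sym2 X → ℝ × ℝ) (Ch : Set (ℝ × ℝ))
    (Wn : ℕ → Finset V) (v : V) (hv : v ∈ Wn 0) (J : ℕ) :
    Climb vt σ w Ch Wn J v ∨ ∃ j < J, Stuck vt σ w Ch Wn j v := by
  induction J with
  | zero =>
    left
    refine ⟨fun _ => v, rfl, ?_, ?_, fun i hi => absurd hi (Nat.not_lt_zero _)⟩
    · intro i hi
      rw [Nat.le_zero.1 hi]; exact hv
    · intro i hi l hl _
      omega
  | succ J ih =>
    rcases ih with ⟨π, h0, hW, hinj, hst⟩ | ⟨j, hj, h⟩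
    · by_cases hext : ∃ x, vt x = π J ∧ vt (σ x) ∈ Wn (J + 1) ∧ (∀ i ≤ J, vt (σ x) ≠ π i) ∧
        w s(x, σ x) ∈ Ch
      · left
        obtain ⟨x, hx1, hx2, hx3, hx4⟩ := hext
        refine ⟨fun i => if i ≤ J then π i else vt (σ x), by simpa using h0, ?_, ?_, ?_⟩
        · intro i hi
          by_cases hiJ : i ≤ J
          · simp only [if_pos hiJ]; exact hW i hiJ
          · have : i = J + 1 := by omega
            simp only [if_neg hiJ]
            rw [this]; exact hx2
        · intro i hi l hl hil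
          by_cases hiJ : i ≤ J
          · by_cases hlJ : l ≤ J
            · simp only [if_pos hiJ, if_pos hlJ] at hil
              exact hinj i hiJ l hlJ hil
            · simp only [if_pos hiJ, if_neg hlJ] at hil
              exact absurd hil.symm (hx3 i hiJ)
          · by_cases hlJ : l ≤ J
            · simp only [if_neg hiJ, if_pos hlJ] at hil
              exact absurd hil (hx3 l hlJ)
            · omega
        · intro i hi
          rcases Nat.lt_or_ge i J with hiJ | hiJ
          · obtain ⟨y, hy1, hy2, hy3⟩ := hst i hiJ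
            refine ⟨y, ?_, ?_, hy3⟩
            · simp only [if_pos hiJ.le]; exact hy1
            · simp only [if_pos (Nat.succ_le_of_lt hiJ)]; exact hy2
          · have : i = J := by omega
            subst this
            refine ⟨x, ?_, ?_, hx4⟩
            · simp only [le_refl, if_true]; exact hx1
            · have h' : ¬ (i + 1 ≤ i) := by omega
              simp only [if_neg h']
      · right
        refine ⟨J, Nat.lt_succ_self _, π, h0, ⟨?_, hinj⟩, hW, ?_⟩
        · intro i hi
          obtain ⟨y, hy1, hy2, -⟩ := hst i hi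
          exact ⟨y, hy1, hy2⟩
        · intro x h1 h2 h3 h4
          exact hext ⟨x, h1, h2, h3, h4⟩
    · exact Or.inr ⟨j, by omega, h⟩

theorem main (hCL : S_CL) : S_CLIMB := by
  intro X V _ _ _ vt ρ _ Ch hCh p hp0 hp1 hpρ Wn J hi m t hJ hhi hhi0 hm ht hmt v hv
  calc avg (fun σ : Equiv.Perm X => WM ρ {w | ¬ Climb vt σ w Ch Wn J v})
      ≤ avg (fun σ : Equiv.Perm X => ∑ j ∈ Finset.range J,
          WM ρ {w | Stuck vt σ w Ch Wn j v}) := by
        refine avg_mono fun σ _ => ?_
        refine le_trans (measure_mono (t := ⋃ j ∈ Finset.range J,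
          {w | Stuck vt σ w Ch Wn j v}) ?_) (measure_biUnion_finset_le _ _)
        intro w hw
        rcases climb_or vt σ w Ch Wn v hv J with h | ⟨j, hj, h⟩
        · exact absurd h hw
        · rw [Set.mem_iUnion₂]
          exact ⟨j, Finset.mem_range.2 hj, h⟩
    _ = ∑ j ∈ Finset.range J, avg (fun σ : Equiv.Perm X =>
          WM ρ {w | Stuck vt σ w Ch Wn j v}) := avg_sum _ _
    _ ≤ ∑ j ∈ Finset.range J, ENNReal.ofReal ((∏ r ∈ Finset.range j,
          (hi r * Fintype.card X / ((Fintype.card X : ℝ) - 2 * r - 1))) *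
        Real.exp (-(p * m j * t j / (4 * Fintype.card X)))) := by
        refine Finset.sum_le_sum fun j hj => ?_
        rw [Finset.mem_range] at hj
        exact hCL X V vt ρ Ch hCh p hp0 hp1 hpρ v j (m j) (t j) Wn (Wn (j + 1)) hi (by omega)
          (fun i hij => hhi i (by omega)) (fun i hij => hhi0 i (by omega)) hv (hm j hj) (ht j hj)
          (hmt j hj)
    _ = _ := by
        rw [ENNReal.ofReal_sum_of_nonneg]
        intro j hj
        rw [Finset.mem_range] at hj
        refine mul_nonneg (Finset.prod_nonneg fun r hr => ?_) (Real.exp_nonneg _)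
        rw [Finset.mem_range] at hr
        refine div_nonneg (mul_nonneg (hhi0 r (by omega)) (Nat.cast_nonneg _)) ?_
        have h1 : (2 * r + 1 : ℕ) ≤ Fintype.card X := by omega
        have h2 : ((2 * r + 1 : ℕ) : ℝ) ≤ (Fintype.card X : ℝ) := by exact_mod_cast h1
        push_cast at h2
        linarith

end Pool.Agent.Helper29.CP.CLIMB
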