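import Pool.Agent.Helper29.CP.Avg

/-!
# CP, part HUB: the vertices of large degree are pairwise joined by cheap edges
-/

set_option autoImplicit false

open MeasureTheory
open scoped ENNReal

namespace Pool.Agent.Helper29.CP.HUB

open Pool.Agent.Helper20.CP

theorem main (hM4 : S_M4) : S_HUB := by
  classical
  intro X V _ _ vt ρ _ Ch hCh p hp0 hp1 hpρ Hb m hHb hX
  set e : ℝ≥0∞ := ENNReal.ofReal (Real.exp (-(p * m ^ 2 / (2 * Fintype.card X)))) with he
  -- one pair
  have hpair : ∀ u ∈ Hb, ∀ v ∈ Hb, u ≠ v →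
      avg (fun σ : Equiv.Perm X => WM ρ {w | ∀ x, vt x = u → vt (σ x) = v → w s(x, σ x) ∉ Ch}) ≤
        e := by
    intro u hu v hv huv
    obtain ⟨A, hAu, hAc⟩ : ∃ A ⊆ (Finset.univ.filter fun x => vt x = u), A.card = m := by
      refine Finset.exists_subset_card_eq ?_
      have := hHb u hu
      unfold dg at this
      exact le_trans (by omega : m ≤ 2 * m) this
    obtain ⟨T, hTv, hTc⟩ : ∃ T ⊆ (Finset.univ.filter fun x => vt x = v), T.card = 2 * m := by
      refine Finset.exists_subset_card_eq ?_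
      have := hHb v hv
      unfold dg at this
      exact this
    have hdis : Disjoint A T := by
      rw [Finset.disjoint_left]
      intro x hxA hxT
      have h1 := (Finset.mem_filter.1 (hAu hxA)).2
      have h2 := (Finset.mem_filter.1 (hTv hxT)).2
      exact huv (h1.symm.trans h2)
    have h4 := hM4 X ρ Ch hCh p hp0 hp1 hpρ 0 Fin.elim0 Fin.elim0
      ⟨fun i => i.elim0, fun i => i.elim0, fun i => i.elim0⟩ (by omega) A T hdis
      (fun i => i.elim0) (by omega)
    refine avg_le ?_
    refine le_trans ?_ (le_trans h4 (le_of_eq ?_))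
    · have hfil : (pairings X).filter (fun σ => ∀ i : Fin 0,
          σ ((Fin.elim0 : Fin 0 → X) i) = (Fin.elim0 : Fin 0 → X) i) = pairings X := by
        rw [Finset.filter_true_of_mem]
        intro σ _ i
        exact i.elim0
      rw [hfil]
      refine Finset.sum_le_sum fun σ _ => measure_mono ?_
      intro w hw x hxA hxT
      exact hw x (Finset.mem_filter.1 (hAu hxA)).2 (Finset.mem_filter.1 (hTv hxT)).2
    · rw [he, hAc, hTc]
      simp only [Finset.range_zero, Finset.prod_empty, inv_one, one_mul]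
      congr 3
      push_cast
      ring
  calc avg (fun σ : Equiv.Perm X => WM ρ {w | ∃ u ∈ Hb, ∃ v ∈ Hb, u ≠ v ∧
        ∀ x, vt x = u → vt (σ x) = v → w s(x, σ x) ∉ Ch})
      ≤ avg (fun σ : Equiv.Perm X => ∑ q ∈ Hb ×ˢ Hb, if q.1 = q.2 then 0 else
          WM ρ {w | ∀ x, vt x = q.1 → vt (σ x) = q.2 → w s(x, σ x) ∉ Ch}) := by
        refine avg_mono fun σ _ => ?_
        refine le_trans (measure_mono (t := ⋃ q ∈ Hb ×ˢ Hb, if q.1 = q.2 then ∅ else
          {w | ∀ x, vt x = q.1 → vt (σ x) = q.2 → w s(x, σ x) ∉ Ch}) ?_) ?_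
        · rintro w ⟨u, hu, v, hv, huv, hw⟩
          rw [Set.mem_iUnion₂]
          refine ⟨(u, v), Finset.mem_product.2 ⟨hu, hv⟩, ?_⟩
          rw [if_neg huv]
          exact hw
        · refine le_trans (measure_biUnion_finset_le _ _) (Finset.sum_le_sum fun q _ => ?_)
          split_ifs with h
          · simp
          · exact le_rfl
    _ = ∑ q ∈ Hb ×ˢ Hb, avg (fun σ : Equiv.Perm X => if q.1 = q.2 then 0 else
          WM ρ {w | ∀ x, vt x = q.1 → vt (σ x) = q.2 → w s(x, σ x) ∉ Ch}) := avg_sum _ _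
    _ ≤ ∑ q ∈ Hb ×ˢ Hb, e := by
        refine Finset.sum_le_sum fun q hq => ?_
        rw [Finset.mem_product] at hq
        by_cases h : q.1 = q.2
        · simp only [if_pos h]
          refine avg_le ?_
          simp
        · simp only [if_neg h]
          exact hpair q.1 hq.1 q.2 hq.2 h
    _ = ENNReal.ofReal ((Hb.card : ℝ) ^ 2 * Real.exp (-(p * m ^ 2 / (2 * Fintype.card X)))) := by
        rw [Finset.sum_const, Finset.card_product, nsmul_eq_mul, he,
          ENNReal.ofReal_mul (by positivity), ← ENNReal.ofReal_natCast]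
        congr 2
        push_cast
        ring

end Pool.Agent.Helper29.CP.HUB
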