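import Pool.Agent.Helper20.CP.Spec

/-!
# CP: elementary properties of the mean over pairings
-/

set_option autoImplicit false

open MeasureTheory
open scoped ENNReal

namespace Pool.Agent.Helper29.CP

open Pool.Agent.Helper20.CP

variable {X : Type} [Fintype X]

lemma avg_le {F : Equiv.Perm X → ℝ≥0∞} {c : ℝ≥0∞}
    (h : ∑ σ ∈ pairings X, F σ ≤ (pairings X).card * c) : avg F ≤ c :=
  ENNReal.div_le_of_le_mul' h

lemma avg_mono {F F' : Equiv.Perm X → ℝ≥0∞} (h : ∀ σ ∈ pairings X, F σ ≤ F' σ) :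
    avg F ≤ avg F' :=
  ENNReal.div_le_div_right (Finset.sum_le_sum h) _

lemma avg_sum {ι : Type} (s : Finset ι) (F : ι → Equiv.Perm X → ℝ≥0∞) :
    avg (fun σ => ∑ i ∈ s, F i σ) = ∑ i ∈ s, avg (F i) := by
  unfold avg
  rw [Finset.sum_comm]
  simp only [div_eq_mul_inv, Finset.sum_mul]

lemma avg_add (F F' : Equiv.Perm X → ℝ≥0∞) :
    avg (fun σ => F σ + F' σ) = avg F + avg F' := by
  unfold avg
  rw [Finset.sum_add_distrib]
  simp only [div_eq_mul_inv, add_mul]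

lemma avg_div (F : Equiv.Perm X → ℝ≥0∞) (c : ℝ≥0∞) :
    avg (fun σ => F σ / c) = avg F / c := by
  unfold avg
  simp only [div_eq_mul_inv, Finset.sum_mul]
  refine Finset.sum_congr rfl fun σ _ => ?_
  ring

lemma avg_le_one {F : Equiv.Perm X → ℝ≥0∞} (h : ∀ σ ∈ pairings X, F σ ≤ 1) : avg F ≤ 1 := by
  refine avg_le ?_
  calc ∑ σ ∈ pairings X, F σ ≤ ∑ σ ∈ pairings X, (1 : ℝ≥0∞) := Finset.sum_le_sum h
    _ = (pairings X).card * 1 := by simp

end Pool.Agent.Helper29.CP
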